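import Pool.Agent.H55.FFM.TD
import Pool.Agent.H55.FFM.TP
import Pool.Agent.H55.FFM.Lem

/-!
# The degree of a curve is the maximal degree of a linear form (row DMX of ffm_modules)
-/

set_option autoImplicit false

open Pool.Agent.H55.FFM

namespace Pool.Agent.H17.FFM

theorem dmx_sum {k F S : Type} [Field k] [Field F] [Algebra k F] {v : S → F → ℤ}
    (hv : Vs k v) (s : S) (M : ℤ) {ι : Type} [DecidableEq ι] (f : ι → F) (A : Finset ι)
    (hf : ∀ i, f i ≠ 0 → -M ≤ v s (f i)) :
    (∑ i ∈ A, f i) ≠ 0 → -M ≤ v s (∑ i ∈ A, f i) := by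
  induction A using Finset.induction_on with
  | empty => intro h; exact absurd Finset.sum_empty h
  | insert a A ha ih =>
    intro h
    rw [Finset.sum_insert ha] at h ⊢
    by_cases h1 : f a = 0
    · rw [h1, zero_add] at h ⊢
      exact ih h
    · by_cases h2 : (∑ i ∈ A, f i) = 0
      · rw [h2, add_zero]
        exact hf a h1
      · have h3 := hv.add s _ _ h1 h2 h
        exact le_trans (le_min (hf a h1) (ih h2)) h3

theorem pf_DMX (hPLA : T_PLA) (hDGP : T_DGP) : T_DMX := by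
  intro k F _ _ _ _ _ R x hcv hx ht
  classical
  obtain ⟨S, hfS, v, hPD⟩ := hPLA k F R hcv
  have hv : Vs k v := hPD.toVs
  set Cc : S → ℤ := fun s => ∑ i, |v s (x i)| with hCc
  have hCc0 : ∀ s, 0 ≤ Cc s := fun s => Finset.sum_nonneg fun i _ => abs_nonneg _
  have hCi : ∀ s i, -(Cc s) ≤ v s (x i) := by
    intro s i
    have h1 : |v s (x i)| ≤ Cc s :=
      Finset.single_le_sum (f := fun i => |v s (x i)|) (fun i _ => abs_nonneg _)
        (Finset.mem_univ i)
    have h2 := neg_abs_le (v s (x i))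
    linarith
  have hmem : ∀ t : Fin 3 → k, Pool.Agent.H8.TD.lc t x ∈ R := by
    intro t
    unfold Pool.Agent.H8.TD.lc
    exact R.sum_mem fun i _ => R.smul_mem (hx i) _
  have hlow : ∀ (t : Fin 3 → k) (s : S), Pool.Agent.H8.TD.lc t x ≠ 0 →
      -(Cc s) ≤ v s (Pool.Agent.H8.TD.lc t x) := by
    intro t s hne
    unfold Pool.Agent.H8.TD.lc at hne ⊢
    refine dmx_sum hv s (Cc s) (fun i => t i • x i) Finset.univ ?_ hne
    intro i hi
    have hi' : t i • x i ≠ 0 := hi
    rw [Algebra.smul_def] at hi'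
    have h1 : algebraMap k F (t i) ≠ 0 := left_ne_zero_of_mul hi'
    have h2 : x i ≠ 0 := right_ne_zero_of_mul hi'
    have h3 : t i ≠ 0 := by
      intro h
      exact h1 (by rw [h, map_zero])
    change -(Cc s) ≤ v s (t i • x i)
    rw [Algebra.smul_def, hv.mul s _ _ h1 h2, hv.cst s _ h3, zero_add]
    exact hCi s i
  set B : ℕ := max (∑ s, (Cc s).toNat) (dg k ({0} : Set F)) with hB
  have hbd : ∀ t : Fin 3 → k, dg k {Pool.Agent.H8.TD.lc t x} ≤ B := by
    intro t
    by_cases h0 : Pool.Agent.H8.TD.lc t x = 0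
    · rw [h0]
      exact le_max_right _ _
    · refine le_trans ?_ (le_max_left _ _)
      have h1 := hDGP k F R S v hcv hPD _ (hmem t) h0
      have h2 : (dg k {Pool.Agent.H8.TD.lc t x} : ℤ) ≤ ∑ s, ((Cc s).toNat : ℤ) := by
        rw [h1]
        refine Finset.sum_le_sum fun s _ => ?_
        have h3 := hlow t s h0
        have h4 := Int.toNat_of_nonneg (hCc0 s)
        rw [h4]
        refine max_le (hCc0 s) ?_
        linarith
      exact_mod_cast h2
  have hne : (Set.range fun t : Fin 3 → k => dg k {Pool.Agent.H8.TD.lc t x}).Nonempty :=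
    ⟨_, ⟨0, rfl⟩⟩
  have hba : BddAbove (Set.range fun t : Fin 3 → k => dg k {Pool.Agent.H8.TD.lc t x}) :=
    ⟨B, by rintro _ ⟨t, rfl⟩; exact hbd t⟩
  obtain ⟨s', hs'⟩ := Nat.sSup_mem hne hba
  have hmax : ∀ s : Fin 3 → k, dg k {Pool.Agent.H8.TD.lc s x} ≤
      dg k {Pool.Agent.H8.TD.lc s' x} := by
    intro s
    have h1 := le_csSup hba ⟨s, rfl⟩
    rw [← hs'] at h1
    exact h1
  refine ⟨s', hmax, ?_⟩
  obtain ⟨i, hi⟩ := ht
  have h1 := dg_cv hcv hi
  have h2 : Pool.Agent.H8.TD.lc (Pi.single i (1 : k)) x = x i := by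
    unfold Pool.Agent.H8.TD.lc
    rw [Finset.sum_eq_single i]
    · rw [Pi.single_eq_same, one_smul]
    · intro j _ hj
      rw [Pi.single_eq_of_ne hj, zero_smul]
    · intro h
      exact absurd (Finset.mem_univ i) h
  have h3 := hmax (Pi.single i (1 : k))
  rw [h2] at h3
  exact le_trans h1 h3

end Pool.Agent.H17.FFM
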