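import Pool.Agent.H55.FFM.TP
import Pool.Agent.H42.FFM.PV2

/-!
# PV4: the norm and the valuations above `X = 0`
-/

set_option autoImplicit false

open IsDedekindDomain Polynomial

namespace Pool.Agent.H17.FFM

open Pool.Agent.H55.FFM

section count

variable {B : Type} [CommRing B] [IsDedekindDomain B]

/-- multiplicity of a prime ideal in an ideal -/
noncomputable def ct (v : HeightOneSpectrum B) (I : Ideal B) : ℕ :=
  (Associates.mk v.asIdeal).count (Associates.mk I).factors

theorem ct_mul (v : HeightOneSpectrum B) {I J : Ideal B} (hI : I ≠ 0) (hJ : J ≠ 0) :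
    ct v (I * J) = ct v I + ct v J := by
  unfold ct
  rw [← Associates.mk_mul_mk]
  exact Associates.count_mul (Associates.mk_ne_zero.2 hI) (Associates.mk_ne_zero.2 hJ)
    v.associates_irreducible

theorem ct_top (v : HeightOneSpectrum B) : ct v ⊤ = 0 := by
  unfold ct
  rw [← Ideal.one_eq_top, Associates.mk_one, Associates.factors_one,
    Associates.count_zero v.associates_irreducible]

theorem ct_self (v : HeightOneSpectrum B) : ct v v.asIdeal = 1 :=
  Associates.count_self v.associates_irreducible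

theorem ct_ne {v w : HeightOneSpectrum B} (h : v ≠ w) : ct v w.asIdeal = 0 := by
  refine Associates.count_eq_zero_of_ne v.associates_irreducible w.associates_irreducible ?_
  intro h2
  apply h
  ext1
  exact associated_iff_eq.1 (Associates.mk_eq_mk_iff_associated.1 h2)

theorem ct_dvd {v : HeightOneSpectrum B} {I : Ideal B} (hI : I ≠ 0) :
    ct v I ≠ 0 ↔ I ≤ v.asIdeal := by
  unfold ct
  rw [Associates.count_ne_zero_iff_dvd hI v.irreducible, Ideal.dvd_iff_le]

theorem ct_pow (v : HeightOneSpectrum B) {I : Ideal B} (hI : I ≠ 0) (n : ℕ) :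
    ct v (I ^ n) = n * ct v I := by
  unfold ct
  rw [Associates.mk_pow]
  exact Associates.count_pow (Associates.mk_ne_zero.2 hI) v.associates_irreducible n

theorem vP_eq {F : Type} [Field F] [Algebra B F] [IsFractionRing B F] (P : HeightOneSpectrum B)
    (b : B) (hb : b ≠ 0) : vP P (algebraMap B F b) = ct P (Ideal.span {b}) := by
  unfold vP ct
  rw [HeightOneSpectrum.valuation_of_algebraMap, HeightOneSpectrum.intValuation_if_neg _ hb,
    WithZero.log_exp, neg_neg]

end count

section main

variable {k : Type} [Field k]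

theorem X_prime : (Ideal.span {(X : k[X])}).IsPrime :=
  (Ideal.span_singleton_prime X_ne_zero).2 prime_X

/-- the prime ideal of `0` -/
noncomputable def v0 : HeightOneSpectrum k[X] :=
  ⟨Ideal.span {X}, X_prime, fun h => X_ne_zero (Ideal.span_singleton_eq_bot.1 h)⟩

theorem ct_span (f : k[X]) (hf : f ≠ 0) :
    ct (v0 : HeightOneSpectrum k[X]) (Ideal.span {f}) = f.rootMultiplicity 0 := by
  obtain ⟨g, hg, hd⟩ := exists_eq_pow_rootMultiplicity_mul_and_not_dvd f hf 0
  rw [C_0, sub_zero] at hg hd
  have hg0 : g ≠ 0 := by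
    rintro rfl
    exact hd (dvd_zero _)
  have hX0 : (Ideal.span {(X : k[X])}) ≠ 0 := fun h => X_ne_zero (Ideal.span_singleton_eq_bot.1 h)
  have e : Ideal.span {f} = Ideal.span {(X : k[X])} ^ (f.rootMultiplicity 0) *
      Ideal.span {g} := by
    rw [Ideal.span_singleton_pow, Ideal.span_singleton_mul_span_singleton, ← hg]
  rw [e, ct_mul _ (pow_ne_zero _ hX0) (fun h => hg0 (Ideal.span_singleton_eq_bot.1 h)),
    ct_pow _ hX0]
  have h1 : ct (v0 : HeightOneSpectrum k[X]) (Ideal.span {(X : k[X])}) = 1 := ct_self v0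
  have h2 : ct (v0 : HeightOneSpectrum k[X]) (Ideal.span {g}) = 0 := by
    by_contra h
    rw [← ne_eq, ct_dvd (fun h => hg0 (Ideal.span_singleton_eq_bot.1 h))] at h
    exact hd (Ideal.mem_span_singleton.1 (h (Ideal.mem_span_singleton_self g)))
  rw [h1, h2, mul_one, add_zero]

end main

theorem pf_PV4 (_hPV1 : T_PV1) : T_PV4 := by
  have hPV2 := Pool.Agent.H42.FFM.pf_PV2
  intro k B F _ _ _ _ _ _ _ _ _ _ _ _ hinj
  have : Module.IsTorsionFree k[X] B := Module.isTorsionFree_iff_algebraMap_injective.2 hinj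
  have : CharZero (FractionRing k[X]) :=
    charZero_of_injective_algebraMap (IsFractionRing.injective k[X] (FractionRing k[X]))
  have hX0 : algebraMap k[X] B X ≠ 0 := by
    intro h
    exact X_ne_zero (hinj (h.trans (map_zero _).symm))
  constructor
  · have hf := Ideal.finite_factors (I := Ideal.span {algebraMap k[X] B X})
      (fun h => hX0 (Ideal.span_singleton_eq_bot.1 h))
    refine (hf.subset ?_).to_subtype
    intro v hv
    show v.asIdeal ∣ Ideal.span {algebraMap k[X] B X}
    rw [Ideal.dvd_iff_le, Ideal.span_singleton_le_iff_mem]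
    exact hv
  intro _ b hb
  have hv0m : (v0 : HeightOneSpectrum k[X]).asIdeal.IsMaximal := v0.isPrime.isMaximal v0.ne_bot
  -- the prime ideals
  have base : ∀ w : HeightOneSpectrum B,
      ∑ P : Sin k B, ct P.1 w.asIdeal = ct v0 (Ideal.relNorm k[X] w.asIdeal) := by
    intro w
    have hwm : w.asIdeal.IsMaximal := w.isPrime.isMaximal w.ne_bot
    have hrn : Ideal.relNorm k[X] w.asIdeal ≠ 0 := fun h =>
      w.ne_bot (Ideal.relNorm_eq_bot_iff.1 h)
    by_cases hX : algebraMap k[X] B X ∈ w.asIdeal
    · have hlhs : ∑ P : Sin k B, ct P.1 w.asIdeal = 1 := by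
        rw [Finset.sum_eq_single (⟨w, hX⟩ : Sin k B)]
        · exact ct_self w
        · intro P _ hP
          exact ct_ne fun h => hP (Subtype.ext h)
        · intro h
          exact absurd (Finset.mem_univ _) h
      have hov : w.asIdeal.LiesOver (v0 : HeightOneSpectrum k[X]).asIdeal := by
        refine ⟨?_⟩
        refine hv0m.eq_of_le (Ideal.comap_ne_top _ w.isPrime.ne_top) ?_
        show Ideal.span {X} ≤ _
        rw [Ideal.span_singleton_le_iff_mem]
        exact hX
      have hone : w.asIdeal.inertiaDeg k[X] = 1 := by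
        rw [Ideal.inertiaDeg_eq_of_isMaximal (v0 : HeightOneSpectrum k[X]).asIdeal w.asIdeal]
        let : Field (k[X] ⧸ (v0 : HeightOneSpectrum k[X]).asIdeal) := Ideal.Quotient.field _
        refine finrank_eq_one (1 : B ⧸ w.asIdeal) ?_ ?_
        · have := Ideal.Quotient.nontrivial_iff.2 w.isPrime.ne_top
          exact one_ne_zero
        · intro y
          obtain ⟨y, rfl⟩ := Ideal.Quotient.mk_surjective y
          obtain ⟨c, hc⟩ := hPV2 k B w hX y
          refine ⟨Ideal.Quotient.mk _ (C c), ?_⟩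
          rw [Algebra.smul_def, mul_one]
          show Ideal.Quotient.mk _ (algebraMap k[X] B (C c)) = _
          rw [Ideal.Quotient.eq]
          have e : algebraMap k[X] B (C c) = algebraMap k B c := by
            rw [IsScalarTower.algebraMap_apply k k[X] B]
            rfl
          rw [e, ← neg_mem_iff, neg_sub]
          exact hc
      rw [hlhs, Ideal.relNorm_eq_pow_of_isMaximal w.asIdeal
        (v0 : HeightOneSpectrum k[X]).asIdeal, hone, pow_one, ct_self]
    · have hlhs : ∑ P : Sin k B, ct P.1 w.asIdeal = 0 := by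
        refine Finset.sum_eq_zero fun P _ => ct_ne ?_
        rintro h
        exact hX (h ▸ P.2)
      rw [hlhs]
      by_contra hne
      have hne' : ct v0 (Ideal.relNorm k[X] w.asIdeal) ≠ 0 := fun h => hne h.symm
      rw [ct_dvd hrn] at hne'
      obtain ⟨q, hq⟩ : ∃ q : Ideal k[X], q = w.asIdeal.under k[X] := ⟨_, rfl⟩
      have hqp : q.IsPrime := by rw [hq]; exact Ideal.IsPrime.under k[X] w.asIdeal
      have hov : w.asIdeal.LiesOver q := ⟨hq⟩
      obtain ⟨s, hs⟩ := Ideal.exists_relNorm_eq_pow_of_isPrime w.asIdeal q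
      rw [hs] at hne'
      have h1 : q ≤ (v0 : HeightOneSpectrum k[X]).asIdeal := by
        rcases Nat.eq_zero_or_pos s with h0 | h0
        · rw [h0, pow_zero, Ideal.one_eq_top, top_le_iff] at hne'
          exact absurd hne' v0.isPrime.ne_top
        · exact (v0.isPrime.pow_le_iff (by omega)).1 hne'
      have hq0 : q ≠ ⊥ := by
        obtain ⟨x, hx, hx0⟩ := Submodule.exists_mem_ne_zero_of_ne_bot w.ne_bot
        rw [hq]
        exact Ideal.comap_ne_bot_of_integral_mem hx0 hx (Algebra.IsIntegral.isIntegral x)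
      have hqm : q.IsMaximal := hqp.isMaximal hq0
      have h2 : q = (v0 : HeightOneSpectrum k[X]).asIdeal := hqm.eq_of_le v0.isPrime.ne_top h1
      have h3 : (X : k[X]) ∈ q := by
        rw [h2]
        exact Ideal.mem_span_singleton_self X
      rw [hq] at h3
      exact hX h3
  have gen : ∀ I : Ideal B, I ≠ 0 →
      ∑ P : Sin k B, ct P.1 I = ct v0 (Ideal.relNorm k[X] I) := by
    intro I
    induction I using UniqueFactorizationMonoid.induction_on_prime with
    | h₁ => intro h; exact absurd rfl h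
    | h₂ I hI =>
      intro _
      rw [Ideal.isUnit_iff] at hI
      rw [hI, Ideal.relNorm_top, ct_top]
      exact Finset.sum_eq_zero fun P _ => ct_top _
    | h₃ a p ha hp ih =>
      intro _
      have hp0 : p ≠ 0 := hp.ne_zero
      obtain ⟨w, hw⟩ : ∃ w : HeightOneSpectrum B, w.asIdeal = p :=
        ⟨⟨p, Ideal.isPrime_of_prime hp, hp0⟩, rfl⟩
      have e1 : ∀ P : Sin k B, ct P.1 (p * a) = ct P.1 p + ct P.1 a := fun P => ct_mul _ hp0 ha
      have n1 : Ideal.relNorm k[X] p ≠ 0 := fun h => hp0 (Ideal.relNorm_eq_bot_iff.1 h)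
      have n2 : Ideal.relNorm k[X] a ≠ 0 := fun h => ha (Ideal.relNorm_eq_bot_iff.1 h)
      simp only [e1]
      rw [Finset.sum_add_distrib, ih ha, map_mul, ct_mul _ n1 n2, ← hw, base w]
  have hb0 : Ideal.span {b} ≠ 0 := fun h => hb (Ideal.span_singleton_eq_bot.1 h)
  have hfin := gen _ hb0
  have hN : Algebra.norm k[X] b ≠ 0 := by
    rw [ne_eq, Algebra.norm_eq_zero_iff]
    exact hb
  rw [Ideal.relNorm_singleton, Algebra.intNorm_eq_norm, ct_span _ hN] at hfin
  have e2 : ∀ P : Sin k B, vP P.1 (algebraMap B F b) = (ct P.1 (Ideal.span {b}) : ℤ) :=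
    fun P => vP_eq _ _ hb
  simp only [e2]
  rw [← Nat.cast_sum, hfin]

end Pool.Agent.H17.FFM
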